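import Pool.Agent.W455.Elem.Fin

set_option autoImplicit false

open Pool.Agent.Helper226 Pool.Agent.W455.Elem

universe u

namespace Pool.Agent.Results.MP_5ec99c_ag.InfinitelyManyElementary

/-- Let `k` be an algebraically closed field of any characteristic. The Hilbert schemes of points of
affine 3-space exist, and for every choice of them (schemes representing the Hilbert functors)
there are infinitely many elementary components: for every `R` there is `d > R` such that the
Hilbert scheme of `d` points has an irreducible component a general point of which is a subscheme
supported at one point, and the set of all pairs `(d, Z)`, with `Z` an elementary irreducible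
component of the Hilbert scheme of `d` points, is infinite. -/
theorem result (k : Type u) [Field k] [IsAlgClosed k] :
    (∀ d, Nonempty (HilbertScheme k (MvPolynomial (Fin 3) k) d)) ∧
    ∀ 𝓗 : (d : ℕ) → HilbertScheme k (MvPolynomial (Fin 3) k) d,
      (∀ R, ∃ d, R < d ∧ ∃ Z ∈ irreducibleComponents (𝓗 d).H, IsElementary (𝓗 d) Z) ∧
      {p : (d : ℕ) × Set (𝓗 d).H |
        p.2 ∈ irreducibleComponents (𝓗 p.1).H ∧ IsElementary (𝓗 p.1) p.2}.Infinite :=
  infinitely_many k

end Pool.Agent.Results.MP_5ec99c_ag.InfinitelyManyElementary
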